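import Pool.Agent.J6H54.CH.Stm

/-!
# Size of the low part and of the high part
-/

set_option autoImplicit false

namespace Pool.Agent.J6H87.CH09

open Finset Pool.Agent.J6H54.CH

variable {Λ : Type} [AddCommGroup Λ] {σ : Λ ≃ₗ[ℤ] Λ} {T : Finset (Λ × ℤ)} {p q : Λ → ℝ}
  {κ M C0 : ℝ} {R P : ℕ}

theorem geo_le (h0 : 0 < κ) (h1 : κ < 1) (S : Finset ℕ) : ∑ n ∈ S, κ ^ n ≤ (1 - κ)⁻¹ := by
  rw [← tsum_geometric_of_lt_one h0.le h1]
  exact (summable_geometric_of_lt_one h0.le h1).sum_le_tsum S fun n _ => pow_nonneg h0.le n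

theorem sum_vis (G : ℤ → Prop) [DecidablePred G] (e : ℤ → ℕ)
    (he : ∀ a b, G a → G b → e a = e b → a = b) (h0 : 0 < κ) (h1 : κ < 1) (s : ℤ)
    (w : List (Λ × ℤ)) (hvis : ∀ j, vis j R s w ≤ P) :
    ∑ i ∈ range w.length, (if G (s + ht (w.take i)) then κ ^ e (s + ht (w.take i)) else 0) ≤
      P * (1 - κ)⁻¹ := by
  classical
  obtain ⟨g, hg⟩ : ∃ g : ℕ → ℤ, g = fun i => s + ht (w.take i) := ⟨_, rfl⟩
  have hgi : ∀ i, s + ht (w.take i) = g i := fun i => by rw [hg]
  simp only [hgi]
  have e1 : ∑ i ∈ range w.length, (if G (g i) then κ ^ e (g i) else 0) =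
      ∑ i ∈ (range w.length).filter (fun i => G (g i)), κ ^ e (g i) := by
    rw [Finset.sum_filter]
  have e2 : ∑ i ∈ (range w.length).filter (fun i => G (g i)), κ ^ e (g i) =
      ∑ h ∈ ((range w.length).filter (fun i => G (g i))).image g,
        (#{i ∈ (range w.length).filter (fun i => G (g i)) | g i = h}) • κ ^ e h :=
    Finset.sum_comp (fun h : ℤ => κ ^ e h) g
  have e3 : ∑ h ∈ ((range w.length).filter (fun i => G (g i))).image g,
        (#{i ∈ (range w.length).filter (fun i => G (g i)) | g i = h}) • κ ^ e h ≤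
      ∑ h ∈ ((range w.length).filter (fun i => G (g i))).image g, (P : ℝ) * κ ^ e h := by
    refine Finset.sum_le_sum fun h _ => ?_
    rw [nsmul_eq_mul]
    refine mul_le_mul_of_nonneg_right ?_ (pow_nonneg h0.le _)
    have f1 : (#{i ∈ (range w.length).filter (fun i => G (g i)) | g i = h}) ≤ vis h R s w := by
      unfold vis
      refine Finset.card_le_card fun i hi => ?_
      simp only [mem_filter, mem_range] at hi ⊢
      refine ⟨by omega, ?_⟩
      have f2 : s + ht (w.take i) = h := (hgi i).trans hi.2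
      rw [f2]; simp
    exact_mod_cast f1.trans (hvis h)
  have e4 : ∑ h ∈ ((range w.length).filter (fun i => G (g i))).image g, κ ^ e h ≤
      (1 - κ)⁻¹ := by
    rw [← Finset.sum_image (f := fun n => κ ^ n) (g := e)]
    · exact geo_le h0 h1 _
    · intro a ha b hb hab
      simp only [coe_image, Set.mem_image, coe_filter, Set.mem_ofPred_eq] at ha hb
      obtain ⟨i, ⟨-, hi⟩, rfl⟩ := ha
      obtain ⟨j, ⟨-, hj⟩, rfl⟩ := hb
      exact he _ _ hi hj hab
  rw [e1, e2]
  refine e3.trans ?_
  rw [← Finset.mul_sum]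
  exact mul_le_mul_of_nonneg_left e4 (Nat.cast_nonneg P)

theorem low_le (H : Hyp σ p q κ M C0) (hB : Bd σ T p q R) (c : ℤ)
    (w : List (Λ × ℤ)) : ∀ s : ℤ, Wd T w → p ((σ ^ (-c)) (lowX σ c s w)) ≤ (R : ℝ) *
      ∑ i ∈ range w.length, (if s + ht (w.take i) < c then
        κ ^ (c - (s + ht (w.take i))).toNat else 0) := by
  induction w with
  | nil => intro s _; simp [lowX, H.p_zero]
  | cons a w ih =>
    intro s hw
    have ih' := ih (s + a.2) (fun t ht => hw t (by simp [ht]))
    have ha := hB.p_le a (hw a (by simp))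
    rw [List.length_cons, Finset.sum_range_succ']
    simp only [List.take_succ_cons, ht_cons, List.take_zero, ht_nil, add_zero]
    rw [mul_add]
    simp only [← add_assoc]
    rw [lowX, map_add]
    refine (H.p_add _ _).trans ?_
    have e3 : p ((σ ^ (-c)) (if s < c then (σ ^ s) a.1 else 0)) ≤
        (R : ℝ) * (if s < c then κ ^ (c - s).toNat else 0) := by
      split_ifs with h
      · rw [← pow_add_apply]
        have e4 : -c + s = -(((c - s).toNat : ℕ) : ℤ) := by omega
        rw [e4]
        have e5 := H.p_pow (c - s).toNat a.1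
        have e6 := mul_le_mul_of_nonneg_left ha (pow_nonneg H.κ_pos.le (c - s).toNat)
        linarith
      · simp [H.p_zero]
    linarith

theorem high_le (H : Hyp σ p q κ M C0) (hB : Bd σ T p q R) (c : ℤ)
    (w : List (Λ × ℤ)) : ∀ s : ℤ, Wd T w → q ((σ ^ (-c)) (highX σ c s w)) ≤ (R : ℝ) *
      ∑ i ∈ range w.length, (if c ≤ s + ht (w.take i) then
        κ ^ ((s + ht (w.take i)) - c).toNat else 0) := by
  induction w with
  | nil => intro s _; simp [highX, H.q_zero]
  | cons a w ih =>
    intro s hw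
    have ih' := ih (s + a.2) (fun t ht => hw t (by simp [ht]))
    have ha := hB.q_le a (hw a (by simp))
    rw [List.length_cons, Finset.sum_range_succ']
    simp only [List.take_succ_cons, ht_cons, List.take_zero, ht_nil, add_zero]
    rw [mul_add]
    simp only [← add_assoc]
    rw [highX, map_add]
    refine (H.q_add _ _).trans ?_
    have e3 : q ((σ ^ (-c)) (if s < c then 0 else (σ ^ s) a.1)) ≤
        (R : ℝ) * (if c ≤ s then κ ^ (s - c).toNat else 0) := by
      by_cases h : s < c
      · rw [if_pos h, if_neg (not_le.2 h)]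
        simp [H.q_zero]
      · rw [if_neg h, if_pos (not_lt.1 h), ← pow_add_apply]
        have e4 : -c + s = (((s - c).toNat : ℕ) : ℤ) := by omega
        rw [e4]
        have e5 := H.q_pow (s - c).toNat a.1
        have e6 := mul_le_mul_of_nonneg_left ha (pow_nonneg H.κ_pos.le (s - c).toNat)
        linarith
    linarith

theorem m09 : S_low := by
  intro Λ _ σ T p q κ M C0 R P H hB c s w hw hvis
  have e1 : (P : ℝ) * R / (1 - κ) = R * (P * (1 - κ)⁻¹) := by
    rw [div_eq_mul_inv]
    ring
  rw [e1]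
  constructor
  · refine (low_le H hB c w s hw).trans ?_
    refine mul_le_mul_of_nonneg_left ?_ (Nat.cast_nonneg R)
    exact sum_vis (fun h => h < c) (fun h => (c - h).toNat) (fun a b ha hb hab => by
      omega) H.κ_pos H.κ_lt s w hvis
  · refine (high_le H hB c w s hw).trans ?_
    refine mul_le_mul_of_nonneg_left ?_ (Nat.cast_nonneg R)
    exact sum_vis (fun h => c ≤ h) (fun h => (h - c).toNat) (fun a b ha hb hab => by
      omega) H.κ_pos H.κ_lt s w hvis

end Pool.Agent.J6H87.CH09
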